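import Pool.Agent.Y709.Irr.Count

/-!
Simple collisions from a squarefree product of the differences.
-/

set_option autoImplicit false
set_option linter.unusedSectionVars false

open Polynomial

namespace Pool.Agent.Y709.Irr

variable {k : Type} [Field k] {r : ℕ}

theorem simple_of {β : Fin (r + 1) → k[X]} {d : ℕ} (hd : 0 < d) (hdeg : ∀ i, (β i).natDegree ≤ d)
    (hdegD : ∀ i j, i ≠ j → (β i - β j).natDegree = d)
    (hsq : Squarefree (∏ i, ∏ j ∈ Finset.Ioi i, (β j - β i))) : Simple β d := by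
  classical
  have hdvd1 : ∀ i j : Fin (r + 1), i < j →
      β j - β i ∣ ∏ i, ∏ j ∈ Finset.Ioi i, (β j - β i) := by
    intro i j hij
    exact (Finset.dvd_prod_of_mem (fun j => β j - β i) (Finset.mem_Ioi.2 hij)).trans
      (Finset.dvd_prod_of_mem (fun i => ∏ j ∈ Finset.Ioi i, (β j - β i)) (Finset.mem_univ i))
  have hdvd2 : ∀ i j a b : Fin (r + 1), i < j → a < b → (i, j) ≠ (a, b) →
      (β j - β i) * (β b - β a) ∣ ∏ i, ∏ j ∈ Finset.Ioi i, (β j - β i) := by
    intro i j a b hij hab hne
    by_cases hia : i = a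
    · subst hia
      have hjb : b ≠ j := fun h => hne (by rw [h])
      have h1 : (β j - β i) * (β b - β i) ∣ ∏ j ∈ Finset.Ioi i, (β j - β i) := by
        rw [← Finset.mul_prod_erase (Finset.Ioi i) (fun j => β j - β i) (Finset.mem_Ioi.2 hij)]
        refine mul_dvd_mul_left _ ?_
        exact Finset.dvd_prod_of_mem (fun j => β j - β i)
          (Finset.mem_erase.2 ⟨hjb, Finset.mem_Ioi.2 hab⟩)
      exact h1.trans (Finset.dvd_prod_of_mem (fun i => ∏ j ∈ Finset.Ioi i, (β j - β i))
        (Finset.mem_univ i))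
    · rw [← Finset.mul_prod_erase Finset.univ (fun i => ∏ j ∈ Finset.Ioi i, (β j - β i))
        (Finset.mem_univ i)]
      refine mul_dvd_mul ?_ ?_
      · exact Finset.dvd_prod_of_mem (fun j => β j - β i) (Finset.mem_Ioi.2 hij)
      · refine (Finset.dvd_prod_of_mem (fun j => β j - β a) (Finset.mem_Ioi.2 hab)).trans ?_
        exact Finset.dvd_prod_of_mem (fun i => ∏ j ∈ Finset.Ioi i, (β j - β i))
          (Finset.mem_erase.2 ⟨fun h => hia h.symm, Finset.mem_univ a⟩)
  have key : ∀ i j a b : Fin (r + 1), i < j → a < b → (i, j) ≠ (a, b) →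
      ∀ P : k[X], Irreducible P → P ∣ β j - β i → ¬ P ∣ β b - β a := by
    intro i j a b hij hab hne P hP h1 h2
    apply hP.not_isUnit
    apply hsq P
    exact (mul_dvd_mul h1 h2).trans (hdvd2 i j a b hij hab hne)
  have hflip : ∀ (P : k[X]) (i j : Fin (r + 1)), P ∣ β i - β j ↔ P ∣ β j - β i := by
    intro P i j
    rw [← dvd_neg, neg_sub]
  refine ⟨hd, hdeg, hdegD, ?_, ?_⟩
  · have h1 : ∀ i j : Fin (r + 1), i < j → Squarefree (β j - β i) := fun i j hij =>
      hsq.squarefree_of_dvd (hdvd1 i j hij)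
    intro i j hij
    rcases lt_or_gt_of_ne hij with h | h
    · intro x hx
      exact h1 i j h x ((hflip _ _ _).1 hx)
    · exact h1 j i h
  · intro P hP i j hij h1 a b hab h2
    rcases lt_or_gt_of_ne hij with h | h <;> rcases lt_or_gt_of_ne hab with h' | h'
    · by_contra hcon
      refine key i j a b h h' ?_ P hP ((hflip _ _ _).1 h1) ((hflip _ _ _).1 h2)
      intro heq
      rw [Prod.mk.injEq] at heq
      exact hcon (Or.inl ⟨heq.1.symm, heq.2.symm⟩)
    · by_contra hcon
      refine key i j b a h h' ?_ P hP ((hflip _ _ _).1 h1) h2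
      intro heq
      rw [Prod.mk.injEq] at heq
      exact hcon (Or.inr ⟨heq.2.symm, heq.1.symm⟩)
    · by_contra hcon
      refine key j i a b h h' ?_ P hP h1 ((hflip _ _ _).1 h2)
      intro heq
      rw [Prod.mk.injEq] at heq
      exact hcon (Or.inr ⟨heq.1.symm, heq.2.symm⟩)
    · by_contra hcon
      refine key j i b a h h' ?_ P hP h1 h2
      intro heq
      rw [Prod.mk.injEq] at heq
      exact hcon (Or.inl ⟨heq.2.symm, heq.1.symm⟩)

end Pool.Agent.Y709.Irr
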