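import Pool.Agent.Y515.CntG.Low
import Pool.Agent.Y709.GStm3
import Mathlib.RingTheory.AdjoinRoot
import Mathlib.FieldTheory.Finite.Basic

/-!
Stable lattices modulo an irreducible polynomial.
-/

set_option autoImplicit false
set_option linter.unusedSectionVars false

open Polynomial

namespace Pool.Agent.Y709.Irr

open Pool.Agent.Y709 Pool.Agent.Y515.CntG

variable {k : Type} [Field k] [Fintype k] {q r : ℕ}

theorem cp_decomp (hq0 : 0 < q) (g : k[X]) :
    g = ∑ i ∈ Finset.range q, X ^ (q - 1 - i) * expand k q (cp q i g) := by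
  ext n
  rw [finsetSum_coeff]
  have hlt : n % q < q := Nat.mod_lt _ hq0
  rw [Finset.sum_eq_single (q - 1 - n % q)]
  · have h1 : q - 1 - (q - 1 - n % q) = n % q := by omega
    rw [h1]
    have h2 : n = q * (n / q) + n % q := (Nat.div_add_mod n q).symm
    have h3 : (X ^ (n % q) * expand k q (cp q (q - 1 - n % q) g)).coeff n =
        (X ^ (n % q) * expand k q (cp q (q - 1 - n % q) g)).coeff (q * (n / q) + n % q) :=
      congrArg _ h2
    rw [h3, coeff_X_pow_mul, coeff_expand_mul' hq0, coeff_cp hq0 (by omega), h1]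
    exact congrArg _ h2
  · intro i hi hne
    rw [Finset.mem_range] at hi
    rw [coeff_X_pow_mul', coeff_expand hq0]
    split_ifs with h1 h2
    · exfalso
      obtain ⟨c, hc⟩ := h2
      have h3 : n = (q - 1 - i) + q * c := by omega
      have h4 : n % q = q - 1 - i := by
        rw [h3, Nat.add_mul_mod_self_left, Nat.mod_eq_of_lt (by omega)]
      omega
    · rfl
    · rfl
  · intro h
    exfalso
    apply h
    rw [Finset.mem_range]
    omega

theorem pow_inj_mod {F : Type} [Field F] {p s : ℕ} [Fact p.Prime] [CharP F p] (hq : q = p ^ s)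
    {a b : F} (h : a ^ q = b ^ q) : a = b := by
  have h1 : (a - b) ^ q = 0 := by
    rw [hq, sub_pow_char_pow, ← hq, h, sub_self]
  exact sub_eq_zero.1 (eq_zero_of_pow_eq_zero h1)

theorem finite_adjoinRoot {P : k[X]} (hP : Irreducible P) : Finite (AdjoinRoot P) := by
  have h1 : Module.Finite k (AdjoinRoot P) := (AdjoinRoot.powerBasis hP.ne_zero).finite
  exact Module.finite_of_finite k

theorem exists_root_mod (hk : Fintype.card k = q) {P : k[X]} (hP : Irreducible P) (g : k[X]) :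
    ∃ h : k[X], P ∣ g - h ^ q := by
  obtain ⟨p, hp⟩ := CharP.exists k
  have hpf : Fact (Nat.Prime p) := ⟨CharP.char_is_prime k p⟩
  obtain ⟨s, _, hqs⟩ := FiniteField.card k p
  rw [hk] at hqs
  have hPf : Fact (Irreducible P) := ⟨hP⟩
  have hfin := finite_adjoinRoot hP
  have hpF : CharP (AdjoinRoot P) p :=
    charP_of_injective_algebraMap (algebraMap k (AdjoinRoot P)).injective p
  have hinj : Function.Injective (fun a : AdjoinRoot P => a ^ q) := fun a b h =>
    pow_inj_mod hqs h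
  obtain ⟨z, hz⟩ := (Finite.injective_iff_surjective.1 hinj) (AdjoinRoot.mk P g)
  obtain ⟨h, rfl⟩ := AdjoinRoot.mk_surjective z
  refine ⟨h, ?_⟩
  rw [← AdjoinRoot.mk_eq_zero, map_sub, map_pow, sub_eq_zero]
  exact hz.symm

/-- the image under `Φ` is a `q`-th power modulo `P` -/
theorem image_mod (hk : Fintype.card k = q) (W : Submodule k[X] (Fin r → k[X]))
    (Φ : Matrix (Fin r) (Fin r) k[X]) (hW : ∀ x ∈ W, ∀ i < q, vcp q i (mv Φ x) ∈ W)
    {P : k[X]} (hP : Irreducible P) {x : Fin r → k[X]} (hx : x ∈ W) :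
    ∃ z ∈ W, ∀ b, P ∣ mv Φ x b - z b ^ q := by
  obtain ⟨p, hp⟩ := CharP.exists k
  have hpf : Fact (Nat.Prime p) := ⟨CharP.char_is_prime k p⟩
  obtain ⟨s, _, hqs⟩ := FiniteField.card k p
  rw [hk] at hqs
  have hq0 : 0 < q := by rw [← hk]; exact Fintype.card_pos
  choose g hg using fun i : ℕ => exists_root_mod hk hP (X ^ (q - 1 - i))
  refine ⟨∑ i ∈ Finset.range q, g i • vcp q i (mv Φ x), ?_, ?_⟩
  · exact Submodule.sum_mem _ fun i hi => W.smul_mem _ (hW x hx i (Finset.mem_range.1 hi))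
  · intro b
    have h1 : (∑ i ∈ Finset.range q, g i • vcp q i (mv Φ x)) b ^ q =
        ∑ i ∈ Finset.range q, g i ^ q * expand k q (cp q i (mv Φ x b)) := by
      rw [Finset.sum_apply, hqs, sum_pow_char_pow, ← hqs]
      refine Finset.sum_congr rfl fun i _ => ?_
      rw [Pi.smul_apply, smul_eq_mul, mul_pow, ← hk, FiniteField.expand_card]
      rfl
    have h2 : mv Φ x b - ∑ i ∈ Finset.range q, g i ^ q * expand k q (cp q i (mv Φ x b)) =
        ∑ i ∈ Finset.range q, (X ^ (q - 1 - i) - g i ^ q) * expand k q (cp q i (mv Φ x b)) := by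
      have h3 := cp_decomp hq0 (mv Φ x b)
      simp only [sub_mul, Finset.sum_sub_distrib]
      rw [← h3]
    rw [h1, h2]
    exact Finset.dvd_sum fun i _ => Dvd.dvd.mul_right (hg i) _

theorem mv_add' (Φ : Matrix (Fin r) (Fin r) k[X]) (x z : Fin r → k[X]) (b : Fin r) :
    mv Φ (x - z) b = mv Φ x b - mv Φ z b := by
  rw [mv_sub, Pi.sub_apply]

/-- **the dichotomy** -/
theorem dich (hk : Fintype.card k = q) (W : Submodule k[X] (Fin r → k[X]))
    (Φ : Matrix (Fin r) (Fin r) k[X]) (hW : ∀ x ∈ W, ∀ i < q, vcp q i (mv Φ x) ∈ W)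
    {P : k[X]} (hP : Irreducible P) :
    (∀ y ∈ W, ∃ x ∈ W, ∀ b, P ∣ mv Φ x b - y b ^ q) ∨
      (∃ x ∈ W, (∃ b, ¬ P ∣ x b) ∧ ∀ b, P ∣ mv Φ x b) := by
  classical
  by_cases hB : ∃ x ∈ W, (∃ b, ¬ P ∣ x b) ∧ ∀ b, P ∣ mv Φ x b
  · exact Or.inr hB
  left
  push Not at hB
  obtain ⟨p, hp⟩ := CharP.exists k
  have hpf : Fact (Nat.Prime p) := ⟨CharP.char_is_prime k p⟩
  obtain ⟨s, _, hqs⟩ := FiniteField.card k p
  rw [hk] at hqs
  have hPf : Fact (Irreducible P) := ⟨hP⟩
  have hfin := finite_adjoinRoot hP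
  have hpF : CharP (AdjoinRoot P) p :=
    charP_of_injective_algebraMap (algebraMap k (AdjoinRoot P)).injective p
  let red : (Fin r → k[X]) → (Fin r → AdjoinRoot P) := fun x b => AdjoinRoot.mk P (x b)
  let Wb : Set (Fin r → AdjoinRoot P) := red '' (W : Set (Fin r → k[X]))
  have hch : ∀ y : Wb, ∃ x ∈ W, red x = y.1 := fun y => y.2
  choose ch hchW hchr using hch
  choose im himW him using fun y : Wb => image_mod hk W Φ hW hP (hchW y)
  let T : Wb → Wb := fun y => ⟨red (im y), im y, himW y, rfl⟩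
  have hT : Function.Injective T := by
    intro y1 y2 h
    have h1 : red (im y1) = red (im y2) := congrArg Subtype.val h
    have h2 : ch y1 - ch y2 ∈ W := W.sub_mem (hchW y1) (hchW y2)
    have h3 : ∀ b, P ∣ (ch y1 - ch y2) b := by
      by_contra hcon
      push Not at hcon
      obtain ⟨b, hb⟩ := hB _ h2 hcon
      apply hb
      rw [mv_add']
      have h4 : P ∣ im y1 b ^ q - im y2 b ^ q := by
        rw [← AdjoinRoot.mk_eq_zero, map_sub, map_pow, map_pow, sub_eq_zero]
        exact congrArg (· ^ q) (congrFun h1 b)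
      have h5 : mv Φ (ch y1) b - mv Φ (ch y2) b = (mv Φ (ch y1) b - im y1 b ^ q) -
          (mv Φ (ch y2) b - im y2 b ^ q) + (im y1 b ^ q - im y2 b ^ q) := by ring
      rw [h5]
      exact dvd_add (dvd_sub (him y1 b) (him y2 b)) h4
    apply Subtype.ext
    rw [← hchr y1, ← hchr y2]
    funext b
    have h4 := h3 b
    rw [Pi.sub_apply, ← AdjoinRoot.mk_eq_zero, map_sub, sub_eq_zero] at h4
    exact h4
  have hTs := Finite.injective_iff_surjective.1 hT
  intro y hy
  obtain ⟨z, hz⟩ := hTs ⟨red y, y, hy, rfl⟩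
  refine ⟨ch z, hchW z, ?_⟩
  intro b
  have h1 : red (im z) = red y := congrArg Subtype.val hz
  have h4 : P ∣ im z b ^ q - y b ^ q := by
    rw [← AdjoinRoot.mk_eq_zero, map_sub, map_pow, map_pow, sub_eq_zero]
    exact congrArg (· ^ q) (congrFun h1 b)
  have h5 : mv Φ (ch z) b - y b ^ q = (mv Φ (ch z) b - im z b ^ q) + (im z b ^ q - y b ^ q) := by
    ring
  rw [h5]
  exact dvd_add (him z b) h4

end Pool.Agent.Y709.Irr
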