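import Pool.Agent.Y709.Irr.Ker
import Pool.Agent.Y709.Irr.Dich
import Mathlib.LinearAlgebra.Matrix.Adjugate
import Mathlib.LinearAlgebra.Matrix.Determinant.Basic

/-!
Auxiliary results: degrees of determinants, rows and kernels of `Φ`.
-/

set_option autoImplicit false
set_option linter.unusedSectionVars false

open Polynomial

namespace Pool.Agent.Y709.Irr

open Pool.Agent.Y709 Pool.Agent.Y515.CntG Pool.Agent.Y709.Gen

section gen

variable {k : Type} [Field k]

theorem natDegree_det_le {r : ℕ} (A : Matrix (Fin r) (Fin r) k[X]) (g : Fin r → ℕ)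
    (h : ∀ i j, (A i j).natDegree ≤ g i) : A.det.natDegree ≤ ∑ i, g i := by
  rw [Matrix.det_apply]
  refine natDegree_sum_le_of_forall_le _ _ fun σ _ => ?_
  have h1 : (∏ i, A (σ i) i).natDegree ≤ ∑ i, g i := by
    refine (natDegree_prod_le _ _).trans ?_
    refine (Finset.sum_le_sum fun i _ => h (σ i) i).trans (le_of_eq ?_)
    exact Equiv.sum_comp σ g
  rcases Int.units_eq_one_or (Equiv.Perm.sign σ) with hs | hs
  · rw [hs, one_smul]
    exact h1
  · rw [hs, Units.neg_smul, one_smul, natDegree_neg]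
    exact h1

theorem natDegree_adjugate_le {r f : ℕ} (A : Matrix (Fin r) (Fin r) k[X])
    (h : ∀ i j, (A i j).natDegree ≤ f) (i j : Fin r) :
    (A.adjugate i j).natDegree ≤ (r - 1) * f := by
  rw [Matrix.adjugate_apply]
  refine (natDegree_det_le _ (fun l => if l = j then 0 else f) ?_).trans ?_
  · intro a b
    by_cases ha : a = j
    · subst ha
      rw [if_pos rfl, Matrix.updateRow_self]
      by_cases hb : i = b
      · subst hb
        rw [Pi.single_eq_same, natDegree_one]
      · rw [Pi.single_eq_of_ne (Ne.symm hb), natDegree_zero]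
    · rw [if_neg ha, Matrix.updateRow_ne ha]
      exact h a b
  · rw [← Finset.add_sum_erase Finset.univ _ (Finset.mem_univ j), if_pos rfl, zero_add,
      Finset.sum_congr rfl (g := fun _ => f), Finset.sum_const,
      Finset.card_erase_of_mem (Finset.mem_univ _), Finset.card_univ, Fintype.card_fin,
      smul_eq_mul]
    intro l hl
    rw [if_neg (Finset.ne_of_mem_erase hl)]

theorem dvd_of_prime_dvd {a b : k[X]} (ha : Squarefree a)
    (h : ∀ P : k[X], Irreducible P → P ∣ a → P ∣ b) : a ∣ b := by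
  classical
  by_cases ha0 : a = 0
  · rw [ha0] at ha
    exact absurd rfl ha.ne_zero
  obtain ⟨c, hc⟩ := EuclideanDomain.gcd_dvd_left a b
  by_cases hu : IsUnit c
  · have h1 : a ∣ EuclideanDomain.gcd a b := by
      obtain ⟨u, rfl⟩ := hu
      exact ⟨↑u⁻¹, by
        conv_rhs => rw [hc]
        rw [mul_assoc, Units.mul_inv, mul_one]⟩
    exact h1.trans (EuclideanDomain.gcd_dvd_right a b)
  · exfalso
    have hc0 : c ≠ 0 := by
      intro h0
      rw [h0, mul_zero] at hc
      exact ha0 hc
    obtain ⟨P, hP, hPc⟩ := WfDvdMonoid.exists_irreducible_factor hu hc0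
    have h1 : P ∣ a := by
      rw [hc]
      exact hPc.mul_left _
    have h2 := EuclideanDomain.dvd_gcd h1 (h P hP h1)
    have h3 : P * P ∣ a := by
      rw [hc]
      exact mul_dvd_mul h2 hPc
    exact hP.not_isUnit (ha P h3)

/-- there is an irreducible polynomial not dividing a given one -/
theorem exists_irred_not_dvd {g : k[X]} (hg : g ≠ 0) : ∃ P : k[X], Irreducible P ∧ ¬ P ∣ g := by
  have h1 : (1 + X * g).natDegree = 1 + g.natDegree := by
    rw [add_comm, natDegree_add_eq_left_of_natDegree_lt]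
    · rw [natDegree_mul X_ne_zero hg, natDegree_X]
    · rw [natDegree_mul X_ne_zero hg, natDegree_X, natDegree_one]
      omega
  have h2 : ¬ IsUnit (1 + X * g) := by
    intro h
    have := natDegree_eq_zero_of_isUnit h
    omega
  have h3 : (1 + X * g) ≠ 0 := by
    intro h
    rw [h, natDegree_zero] at h1
    omega
  obtain ⟨P, hP, hPd⟩ := WfDvdMonoid.exists_irreducible_factor h2 h3
  refine ⟨P, hP, ?_⟩
  intro hPg
  apply hP.not_isUnit
  apply isUnit_of_dvd_one
  have h4 : (1 : k[X]) = (1 + X * g) - X * g := by ring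
  rw [h4]
  exact dvd_sub hPd (hPg.mul_left _)

/-- two equivalence relations -/
theorem total_or {ι : Type} {E1 E2 : ι → ι → Prop} (s1 : ∀ i j, E1 i j → E1 j i)
    (t1 : ∀ i j l, E1 i j → E1 j l → E1 i l) (s2 : ∀ i j, E2 i j → E2 j i)
    (t2 : ∀ i j l, E2 i j → E2 j l → E2 i l) (h : ∀ i j, E1 i j ∨ E2 i j) :
    (∀ i j, E1 i j) ∨ ∀ i j, E2 i j := by
  by_contra hcon
  push Not at hcon
  obtain ⟨⟨a, b, hab⟩, c, d, hcd⟩ := hcon
  have h1 := (h a b).resolve_left hab
  have h2 := (h c d).resolve_right hcd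
  rcases h a c with h3 | h3
  · have h4 : ¬ E1 b c := fun h4 => hab (t1 _ _ _ h3 (s1 _ _ h4))
    have h5 := (h b c).resolve_left h4
    rcases h b d with h6 | h6
    · exact h4 (t1 _ _ _ h6 (s1 _ _ h2))
    · exact hcd (t2 _ _ _ (s2 _ _ h5) h6)
  · by_cases h4 : E1 a d
    · have h5 : E1 a c := t1 _ _ _ h4 (s1 _ _ h2)
      rcases h b c with h6 | h6
      · exact hab (t1 _ _ _ h5 (s1 _ _ h6))
      · rcases h b d with h7 | h7
        · exact hab (t1 _ _ _ h4 (s1 _ _ h7))
        · exact hcd (t2 _ _ _ (s2 _ _ h6) h7)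
    · have h5 := (h a d).resolve_left h4
      exact hcd (t2 _ _ _ (s2 _ _ h3) h5)

end gen

section rows

variable {k : Type} [Field k] [Fintype k] {r : ℕ}

theorem ext_mv (β : Fin (r + 1) → k[X]) (m : Fin (r + 1) → ℕ) (x : Fin r → k[X])
    (a : Fin (r + 1)) :
    (Fin.cons 0 (mv (minor 1 β m) x) : Fin (r + 1) → k[X]) a =
      ∑ j, phi k β m 0 a j * (Fin.cons 0 x : Fin (r + 1) → k[X]) j := by
  refine Fin.cases ?_ (fun a => ?_) a
  · rw [Fin.cons_zero]
    symm
    refine Finset.sum_eq_zero fun j _ => ?_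
    rw [phi_row k _ _ rfl, zero_mul]
  · rw [Fin.cons_succ, Fin.sum_univ_succ, Fin.cons_zero, mul_zero, zero_add]
    unfold mv minor
    refine Finset.sum_congr rfl fun j _ => ?_
    rw [Matrix.of_apply, one_mul, Fin.cons_succ]

/-- the rows of two sections are congruent modulo their difference -/
theorem row_dvd (β : Fin (r + 1) → k[X]) (m : Fin (r + 1) → ℕ) (x : Fin r → k[X])
    (a b : Fin (r + 1)) :
    β a - β b ∣ (Fin.cons 0 (mv (minor 1 β m) x) : Fin (r + 1) → k[X]) a -
      (Fin.cons 0 (mv (minor 1 β m) x) : Fin (r + 1) → k[X]) b := by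
  rw [ext_mv, ext_mv, ← Finset.sum_sub_distrib]
  refine Finset.dvd_sum fun j _ => ?_
  rw [← sub_mul]
  refine Dvd.dvd.mul_right ?_ _
  unfold phi
  rw [Matrix.of_apply, Matrix.of_apply]
  have h1 := sub_dvd_eval_sub (β a) (β b) (intg k (gj β m j))
  have h2 : -((m j : k[X]) * ((intg k (gj β m j)).eval (β a) - (intg k (gj β m j)).eval (β 0))) -
      -((m j : k[X]) * ((intg k (gj β m j)).eval (β b) - (intg k (gj β m j)).eval (β 0))) =
      -(m j : k[X]) * ((intg k (gj β m j)).eval (β a) - (intg k (gj β m j)).eval (β b)) := by ring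
  rw [h2]
  exact h1.mul_left _

/-- the linear form with the sum zero -/
noncomputable def hatL (L : Fin r → k[X]) : Fin (r + 1) → k[X] := Fin.cons (-∑ b, L b) L

theorem sum_hatL (L : Fin r → k[X]) : ∑ a, hatL L a = 0 := by
  unfold hatL
  rw [Fin.sum_univ_succ, Fin.cons_zero]
  simp only [Fin.cons_succ]
  ring

theorem hatL_dot (L x : Fin r → k[X]) :
    ∑ a, hatL L a * (Fin.cons 0 x : Fin (r + 1) → k[X]) a = ∑ b, L b * x b := by
  unfold hatL
  rw [Fin.sum_univ_succ, Fin.cons_zero, Fin.cons_zero, mul_zero, zero_add]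
  simp only [Fin.cons_succ]

/-- a vector in the kernel modulo `P`, where two sections meet -/
theorem ker_mod {q : ℕ} (hk : Fintype.card k = q) (β : Fin (r + 1) → k[X])
    {m : Fin (r + 1) → ℕ} (hm : ∀ i, 0 < m i) (hmq : ∑ l, m l < q)
    (hinv : ∀ i : ℕ, i < ∑ l, m l → ((i : k) + 1) ≠ 0) {P : k[X]} (hP : Irreducible P)
    {i j : Fin (r + 1)} (hij : i ≠ j) (hPij : P ∣ β i - β j)
    (hcol : ∀ a b, a ≠ b → P ∣ β a - β b → (a = i ∧ b = j) ∨ (a = j ∧ b = i))
    (x L : Fin r → k[X]) (hx : ∀ b, P ∣ mv (minor 1 β m) x b) (hL : ∑ b, L b * x b = 0)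
    (hne : ∃ b, ¬ P ∣ x b) : P ∣ (m j : k[X]) * hatL L i - (m i : k[X]) * hatL L j := by
  classical
  obtain ⟨p, hp⟩ := CharP.exists k
  have hpf : Fact (Nat.Prime p) := ⟨CharP.char_is_prime k p⟩
  obtain ⟨s, _, hqs⟩ := FiniteField.card k p
  rw [hk] at hqs
  have hPf : Fact (Irreducible P) := ⟨hP⟩
  have hpF : CharP (AdjoinRoot P) p :=
    charP_of_injective_algebraMap (algebraMap k (AdjoinRoot P)).injective p
  let π : k[X] →+* AdjoinRoot P := AdjoinRoot.mk P
  have hπ : ∀ a : k, π (algebraMap k k[X] a) = algebraMap k (AdjoinRoot P) a := fun a => rfl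
  let u : Fin (r + 1) → AdjoinRoot P := fun a => π ((Fin.cons 0 x : Fin (r + 1) → k[X]) a)
  have hu0 : u 0 = 0 := by
    show π ((Fin.cons 0 x : Fin (r + 1) → k[X]) 0) = 0
    rw [Fin.cons_zero, map_zero]
  have hu : (phi k (fun a => π (β a)) m 0).mulVec u = 0 := by
    funext a
    rw [Matrix.mulVec, dotProduct, Pi.zero_apply]
    have h1 := congrArg π (ext_mv β m x a)
    rw [map_sum] at h1
    have h2 : π ((Fin.cons 0 (mv (minor 1 β m) x) : Fin (r + 1) → k[X]) a) = 0 := by
      refine Fin.cases ?_ (fun a => ?_) a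
      · rw [Fin.cons_zero, map_zero]
      · rw [Fin.cons_succ]
        exact AdjoinRoot.mk_eq_zero.2 (hx a)
    rw [h2] at h1
    rw [h1]
    refine Finset.sum_congr rfl fun j _ => ?_
    rw [map_mul, map_phi k π hπ]
  obtain ⟨c, hc⟩ := phi_ker_gen (k := k) hqs s.pos (fun a => π (β a)) hm hmq hinv 0 u hu
  have hπeq : ∀ a b, π (β a) = π (β b) ↔ P ∣ β a - β b := by
    intro a b
    rw [← sub_eq_zero, ← map_sub]
    exact AdjoinRoot.mk_eq_zero
  have hmne : ∀ a, ((m a : ℕ) : AdjoinRoot P) ≠ 0 := by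
    intro a h
    have h1 : m a ≤ ∑ l, m l := Finset.single_le_sum (f := m) (fun _ _ => Nat.zero_le _)
      (Finset.mem_univ a)
    have h2 := hm a
    apply hinv (m a - 1) (by omega)
    apply (algebraMap k (AdjoinRoot P)).injective
    rw [map_add, map_natCast, map_one, map_zero, Nat.cast_sub h2, Nat.cast_one, h]
    ring
  have hother : ∀ a, a ≠ i → a ≠ j → u a = c := by
    intro a hai haj
    have h1 := hc a
    rw [Finset.sum_eq_single a] at h1
    · exact sub_eq_zero.1 ((mul_eq_zero.1 h1).resolve_left (hmne a))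
    · intro b hb hba
      rw [Finset.mem_filter] at hb
      exfalso
      rcases hcol b a hba ((hπeq b a).1 hb.2) with h2 | h2
      · exact haj h2.2
      · exact hai h2.2
    · intro h
      exfalso
      apply h
      rw [Finset.mem_filter]
      exact ⟨Finset.mem_univ a, rfl⟩
  have hpair : (m i : AdjoinRoot P) * (u i - c) + (m j : AdjoinRoot P) * (u j - c) = 0 := by
    have h1 := hc i
    have h2 : (Finset.univ.filter fun b => π (β b) = π (β i)) = {i, j} := by
      ext b
      simp only [Finset.mem_filter, Finset.mem_univ, true_and, Finset.mem_insert,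
        Finset.mem_singleton]
      constructor
      · intro h
        by_cases hbi : b = i
        · exact Or.inl hbi
        · rcases hcol b i hbi ((hπeq b i).1 h) with h2 | h2
          · exact absurd h2.1 hbi
          · exact Or.inr h2.1
      · rintro (rfl | rfl)
        · rfl
        · exact ((hπeq i b).2 hPij).symm
    rw [h2, Finset.sum_pair hij] at h1
    exact h1
  have hdot : ∑ a, π (hatL L a) * u a = 0 := by
    have h1 := congrArg π (hatL_dot L x)
    rw [hL, map_zero, map_sum] at h1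
    rw [← h1]
    exact Finset.sum_congr rfl fun a _ => (map_mul π _ _).symm
  have hdot' : ∑ a, π (hatL L a) * (u a - c) = 0 := by
    have h1 : ∑ a, π (hatL L a) = 0 := by rw [← map_sum, sum_hatL, map_zero]
    simp only [mul_sub, Finset.sum_sub_distrib]
    rw [hdot, ← Finset.sum_mul, h1, zero_mul, sub_zero]
  have hdot2 : π (hatL L i) * (u i - c) + π (hatL L j) * (u j - c) = 0 := by
    rw [← hdot', ← Finset.sum_pair (f := fun a => π (hatL L a) * (u a - c)) hij]
    refine Finset.sum_subset (Finset.subset_univ _) fun a _ ha => ?_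
    rw [Finset.mem_insert, Finset.mem_singleton, not_or] at ha
    rw [hother a ha.1 ha.2, sub_self, mul_zero]
  have hfin : ((m j : AdjoinRoot P) * π (hatL L i) - (m i : AdjoinRoot P) * π (hatL L j)) *
      (u i - c) = 0 := by
    have h1 : ((m j : AdjoinRoot P) * π (hatL L i) - (m i : AdjoinRoot P) * π (hatL L j)) *
      (u i - c) = (m j : AdjoinRoot P) * (π (hatL L i) * (u i - c) + π (hatL L j) * (u j - c)) -
        π (hatL L j) * ((m i : AdjoinRoot P) * (u i - c) + (m j : AdjoinRoot P) * (u j - c)) := by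
      ring
    rw [h1, hdot2, hpair, mul_zero, mul_zero, sub_zero]
  rcases mul_eq_zero.1 hfin with h | h
  · rw [← AdjoinRoot.mk_eq_zero, map_sub, map_mul, map_mul, map_natCast, map_natCast]
    exact h
  · exfalso
    rw [h, mul_zero, zero_add] at hpair
    have hj := (mul_eq_zero.1 hpair).resolve_left (hmne j)
    have hall : ∀ a, u a = c := by
      intro a
      by_cases hai : a = i
      · rw [hai]; exact sub_eq_zero.1 h
      · by_cases haj : a = j
        · rw [haj]; exact sub_eq_zero.1 hj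
        · exact hother a hai haj
    have hc0 : c = 0 := by rw [← hall 0, hu0]
    obtain ⟨b, hb⟩ := hne
    apply hb
    have h1 := hall b.succ
    rw [hc0] at h1
    exact AdjoinRoot.mk_eq_zero.1 h1

end rows

end Pool.Agent.Y709.Irr
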