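import Pool.Agent.Y709.Irr.Det
import Pool.Agent.Y709.Irr.Main
import Pool.Agent.Y709.Gen.Bound

/-!
The number of the vanishing twists for pencils with simple collisions, of any degree.
-/

set_option autoImplicit false
set_option linter.unusedSectionVars false

open Polynomial

namespace Pool.Agent.Y709.Irr

open Pool.Agent.Y709 Pool.Agent.Y515.CntG Pool.Agent.Y709.Gen

variable {k : Type} [Field k] [Fintype k] {r q : ℕ}

theorem irr_smul {Φ : Matrix (Fin r) (Fin r) k[X]} (h : IrrX q Φ) {B : k[X]} (hB : B ≠ 0) :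
    IrrX q (Matrix.of fun i j => B * Φ i j) := by
  intro S L₀ u₀ h1 h2 h3 h4
  obtain ⟨x, hx, L, hL, hne⟩ := h S L₀ u₀ h1 h2 h3 h4
  refine ⟨x, hx, L, hL, ?_⟩
  have h5 : ∑ b, expand k q (L b) * ∑ j, (Matrix.of fun i j => B * Φ i j) b j * x j =
      B * ∑ b, expand k q (L b) * ∑ j, Φ b j * x j := by
    rw [Finset.mul_sum]
    refine Finset.sum_congr rfl fun b _ => ?_
    rw [Finset.mul_sum, Finset.mul_sum, Finset.mul_sum]
    refine Finset.sum_congr rfl fun j _ => ?_
    rw [Matrix.of_apply]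
    ring
  rw [h5]
  exact mul_ne_zero hB hne

theorem minor_eq (B : k[X]) (β : Fin (r + 1) → k[X]) (m : Fin (r + 1) → ℕ) :
    minor B β m = Matrix.of fun i j => B * minor 1 β m i j := by
  refine Matrix.ext fun i j => ?_
  unfold minor
  rw [Matrix.of_apply, Matrix.of_apply, Matrix.of_apply, one_mul]

theorem not_pow_dvd_mul {P A B : k[X]} (hP : Prime P) {a b : ℕ} (hA : ¬ P ^ (a + 1) ∣ A)
    (hB : ¬ P ^ (b + 1) ∣ B) : ¬ P ^ (a + b + 1) ∣ A * B := by
  rw [← emultiplicity_lt_iff_not_dvd] at hA hB ⊢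
  rw [emultiplicity_mul hP]
  have h1 : emultiplicity P A ≤ a := by
    have : (((a + 1 : ℕ) : ℕ∞)) = (a : ℕ∞) + 1 := by push_cast; rfl
    rw [this] at hA
    exact Order.le_of_lt_add_one hA
  have h2 : emultiplicity P B ≤ b := by
    have : (((b + 1 : ℕ) : ℕ∞)) = (b : ℕ∞) + 1 := by push_cast; rfl
    rw [this] at hB
    exact Order.le_of_lt_add_one hB
  have h3 : emultiplicity P A + emultiplicity P B ≤ ((a + b : ℕ) : ℕ∞) := by
    push_cast
    exact add_le_add h1 h2
  refine h3.trans_lt ?_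
  exact_mod_cast Nat.lt_succ_self (a + b)

/-- **the number of vanishing twists of a pencil with simple collisions** -/
theorem simple_count (hk : Fintype.card k = q) (hcount : CountDet k q r) (B : k[X]) (hB : B ≠ 0)
    (b : ℕ) (hb : ∀ P : k[X], Irreducible P → ¬ P ^ (b + 1) ∣ B) {β : Fin (r + 1) → k[X]}
    {m : Fin (r + 1) → ℕ} {d : ℕ} (h : Simple β d) (hm : ∀ i, 0 < m i)
    (hinv : ∀ i : ℕ, i < ∑ l, m l → ((i : k) + 1) ≠ 0) (hrn : r * ∑ l, m l ≤ q - 1)
    (hnb : ∑ l, m l + b + 3 * r + 4 ≤ q) (hrq : 4 * (r + 1) ^ 2 ≤ q) (f ρ V N e : ℕ)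
    (hf : f = B.natDegree + d * ∑ l, m l) (he : e ∣ q - 1) (hρ : 2 * r + 1 ≤ ρ) (hρq : ρ + 2 ≤ q)
    (hV : 8 * (r + 1) ^ 2 * (f + 1) ≤ V) (hN : N + f = (q - 1) * V + ρ) :
    {D : k[X] | D.natDegree ≤ N ∧ ∃ χ : MulChar k ℂ, orderOf χ = q - 1 ∧ ∃ ζ : ℂ, ζ ^ e = 1 ∧
      ∃ G : ℂ[X], LG χ (D * B) β m =
        (((1 - C ((q : ℂ) * ζ) * X) * G : ℂ[X]) : PowerSeries ℂ)}.ncard ≤ e * (2 * q ^ N) := by
  obtain ⟨p, hp⟩ := CharP.exists k
  have hpf : Fact (Nat.Prime p) := ⟨CharP.char_is_prime k p⟩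
  obtain ⟨s, _, hqs⟩ := FiniteField.card k p
  rw [hk] at hqs
  have hmle : ∀ i, m i < q := by
    intro i
    have : m i ≤ ∑ i, m i := Finset.single_le_sum (f := m) (fun _ _ => Nat.zero_le _)
      (Finset.mem_univ i)
    omega
  have hinj : Function.Injective β := by
    intro i j hij
    by_contra hne
    exact h.ne hne (sub_eq_zero.2 hij)
  have hdet := det_minor (k := k) hqs s.pos (one_ne_zero (α := k[X])) hinj hm hmle hinv
  have hmq : ∑ i, m i < q - 1 := by omega
  have hn0 : 0 < ∑ i, m i := Finset.sum_pos (fun i _ => hm i) ⟨0, Finset.mem_univ _⟩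
  refine countE_of_bound hk (by omega) B β m hm hinv hmq N _ e he ?_
  have hirr : IrrX q (minor B β m) := by
    rw [minor_eq]
    exact irr_smul (irr_minor hk hm hinv h.pos h.deg h.degD h.sq h.col hdet hrn) hB
  have hdeg1 : ∀ i j, (minor 1 β m i j).natDegree ≤ d * ∑ l, m l := by
    intro i j
    unfold minor
    rw [Matrix.of_apply, one_mul]
    exact natDegree_phi h.deg hm _ _ _
  refine hcount (minor B β m) (minor 1 β m).adjugate (B * (minor 1 β m).det) f
    (∑ l, m l + b) ρ V N ?_ ?_ (mul_ne_zero hB hdet) ?_ ?_ hirr hnb hrq hρ hρq hV hN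
  · intro i j
    rw [minor_eq, Matrix.of_apply, hf]
    exact natDegree_mul_le.trans (Nat.add_le_add_left (hdeg1 i j) _)
  · have h1 : (Matrix.of fun i j => (minor B β m i j).coeff f) =
        B.leadingCoeff • (Matrix.of fun i j => (minor 1 β m i j).coeff (d * ∑ l, m l)) := by
      refine Matrix.ext fun i j => ?_
      rw [Matrix.of_apply, Matrix.smul_apply, Matrix.of_apply, smul_eq_mul, minor_eq,
        Matrix.of_apply, hf, coeff_mul_add_eq_of_natDegree_le le_rfl (hdeg1 i j)]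
      rfl
    rw [h1, Matrix.det_smul]
    exact mul_ne_zero (pow_ne_zero _ (leadingCoeff_ne_zero.2 hB)) (lead_det h hm hinv hdet)
  · rw [minor_eq]
    have h1 : (Matrix.of fun i j => B * minor 1 β m i j) = B • minor 1 β m := rfl
    rw [h1, Matrix.smul_mul, Matrix.mul_adjugate, smul_smul]
  · intro P hP
    have h1 := mult_det h hm hinv hdet hP
    have h2 := not_pow_dvd_mul hP.prime (hb P hP) h1
    rwa [add_comm b] at h2

end Pool.Agent.Y709.Irr
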