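import Pool.Agent.Y709.Irr.Alg
import Mathlib.Algebra.Polynomial.BigOperators

/-!
The determinant of the matrix `Φ` of a pencil with simple collisions.
-/

set_option autoImplicit false
set_option linter.unusedSectionVars false

open Polynomial

namespace Pool.Agent.Y709.Irr

open Pool.Agent.Y709 Pool.Agent.Y515.CntG Pool.Agent.Y709.Gen

section low

variable {k : Type} [Field k]

/-- lower bound of the weighted order at `δ` -/
def LD (δ : k[X]) (D : ℕ) (H : k[X][X]) : Prop := ∀ e, δ ^ (D - e) ∣ H.coeff e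

variable {δ : k[X]}

theorem LD.mul {D D' : ℕ} {H H' : k[X][X]} (h : LD δ D H) (h' : LD δ D' H') :
    LD δ (D + D') (H * H') := by
  intro e
  rw [coeff_mul]
  refine Finset.dvd_sum fun x hx => ?_
  rw [Finset.HasAntidiagonal.mem_antidiagonal] at hx
  refine dvd_trans (pow_dvd_pow _ ?_) (mul_dvd_mul (h x.1) (h' x.2) |> fun t => by
    rw [← pow_add] at t; exact t)
  omega

theorem LD.mono {D D' : ℕ} {H : k[X][X]} (h : LD δ D H) (hD : D' ≤ D) : LD δ D' H := fun e =>
  (pow_dvd_pow _ (by omega)).trans (h e)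

theorem LD.zero (H : k[X][X]) : LD δ 0 H := by
  intro e
  rw [Nat.zero_sub, pow_zero]
  exact one_dvd _

theorem LD.pow {D : ℕ} {H : k[X][X]} (h : LD δ D H) (n : ℕ) : LD δ (D * n) (H ^ n) := by
  induction n with
  | zero =>
    rw [Nat.mul_zero]
    exact LD.zero _
  | succ n ih =>
    rw [pow_succ, Nat.mul_succ]
    exact ih.mul h

theorem LD.prod {κ : Type} (s : Finset κ) {D : κ → ℕ} {H : κ → k[X][X]}
    (h : ∀ i, LD δ (D i) (H i)) : LD δ (∑ i ∈ s, D i) (∏ i ∈ s, H i) := by
  classical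
  induction s using Finset.induction_on with
  | empty =>
    rw [Finset.sum_empty]
    exact LD.zero _
  | insert i s hi ih =>
    rw [Finset.sum_insert hi, Finset.prod_insert hi]
    exact (h i).mul ih

theorem LD.X_sub {b : k[X]} (hb : δ ∣ b) : LD δ 1 (X - C b : k[X][X]) := by
  intro e
  rcases e with _ | e
  · rw [Nat.sub_zero, pow_one, coeff_sub, coeff_X_zero, coeff_C_zero, zero_sub]
    exact (dvd_neg).2 hb
  · have h1 : 1 - (e + 1) = 0 := by omega
    rw [h1, pow_zero]
    exact one_dvd _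

theorem LD.intg {D : ℕ} {H : k[X][X]} (h : LD δ D H) : LD δ (D + 1) (intg k H) := by
  intro e
  rcases e with _ | e
  · rw [coeff_intg_zero]
    exact dvd_zero _
  · rw [coeff_intg_succ]
    have h1 : D + 1 - (e + 1) = D - e := by omega
    rw [h1]
    exact (h e).mul_left _

theorem LD.eval {D : ℕ} {H : k[X][X]} (h : LD δ D H) : δ ^ D ∣ H.eval δ := by
  rw [eval_eq_sum_range]
  refine Finset.dvd_sum fun e _ => ?_
  refine dvd_trans (pow_dvd_pow _ (by omega : D ≤ (D - e) + e)) ?_
  rw [pow_add]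
  exact mul_dvd_mul (h e) dvd_rfl

theorem eq_of_derivative {G G' : k[X][X]} (hd : derivative G = derivative G')
    (h0 : G.coeff 0 = G'.coeff 0) {N : ℕ} (hG : G.natDegree ≤ N) (hG' : G'.natDegree ≤ N)
    (hinv : ∀ i : ℕ, i < N → ((i : k) + 1) ≠ 0) : G = G' := by
  ext1 n
  rcases n with _ | n
  · exact h0
  · by_cases hn : n < N
    · have h1 := congrArg (fun p => p.coeff n) hd
      simp only [coeff_derivative] at h1
      refine mul_right_cancel₀ ?_ h1
      intro h2
      apply hinv n hn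
      have h3 : (C ((n : k) + 1) : k[X]) = 0 := by
        rw [C_add, C_eq_natCast, C_1]
        exact h2
      exact C_eq_zero.1 h3
    · rw [coeff_eq_zero_of_natDegree_lt (by omega), coeff_eq_zero_of_natDegree_lt (by omega)]

/-- the difference of the values of an antiderivative -/
theorem intg_diff (H : k[X][X]) (b δ : k[X])
    (hinv : ∀ i : ℕ, i < H.natDegree + 1 → ((i : k) + 1) ≠ 0) :
    (intg k H).eval (b + δ) - (intg k H).eval b = (intg k (H.comp (X + C b))).eval δ := by
  have hdeg : (H.comp (X + C b)).natDegree ≤ H.natDegree := by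
    refine natDegree_comp_le.trans ?_
    rw [natDegree_X_add_C, mul_one]
  have h1 : (intg k H).comp (X + C b) - C ((intg k H).eval b) = intg k (H.comp (X + C b)) := by
    refine eq_of_derivative (N := H.natDegree + 1) ?_ ?_ ?_ ?_ hinv
    · rw [derivative_sub, derivative_C, sub_zero, derivative_comp, derivative_add, derivative_X,
        derivative_C, add_zero, one_mul, derivative_intg k H (fun i hi => hinv i (by omega)),
        derivative_intg k _ (fun i hi => hinv i (by omega))]
    · rw [coeff_intg_zero, coeff_sub, coeff_C_zero, coeff_zero_eq_eval_zero, eval_comp, eval_add,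
        eval_X, eval_C, zero_add, sub_self]
    · refine (natDegree_sub_le _ _).trans ?_
      rw [natDegree_C, max_eq_left (Nat.zero_le _)]
      refine natDegree_comp_le.trans ?_
      rw [natDegree_X_add_C, mul_one]
      exact natDegree_intg k H
    · exact (natDegree_intg k _).trans (by omega)
  rw [← h1, eval_sub, eval_comp, eval_add, eval_X, eval_C, eval_C, add_comm δ b]

/-- the difference of two rows of `Φ` -/
theorem phi_row_dvd {κ : Type} [Fintype κ] [DecidableEq κ] (β : κ → k[X]) {m : κ → ℕ}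
    (hm : ∀ i, 0 < m i) (hinv : ∀ i : ℕ, i < ∑ l, m l → ((i : k) + 1) ≠ 0) (o : κ) {a b : κ}
    (hab : a ≠ b) (j : κ) :
    (β a - β b) ^ (m a + m b) ∣ phi k β m o a j - phi k β m o b j := by
  set δ := β a - β b with hδ
  have hdeg := natDegree_gj β hm j
  have h1 := intg_diff (gj β m j) (β b) δ (fun i hi => hinv i (by omega))
  have h2 : β b + δ = β a := by rw [hδ]; ring
  rw [h2] at h1
  have h3 : phi k β m o a j - phi k β m o b j =
      -(m j : k[X]) * (intg k ((gj β m j).comp (X + C (β b)))).eval δ := by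
    rw [← h1]
    unfold phi
    rw [Matrix.of_apply, Matrix.of_apply]
    ring
  rw [h3]
  apply Dvd.dvd.mul_left
  let c : κ → ℕ := fun i => if i = a ∨ i = b then 1 else 0
  have hfac : ∀ i, LD δ (c i) ((X - C (β i)).comp (X + C (β b)) : k[X][X]) := by
    intro i
    have h4 : (X - C (β i)).comp (X + C (β b)) = (X - C (β i - β b) : k[X][X]) := by
      rw [sub_comp, X_comp, C_comp, C_sub]
      ring
    rw [h4]
    by_cases hi : i = a ∨ i = b
    · have h5 : c i = 1 := if_pos hi
      rw [h5]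
      apply LD.X_sub
      rcases hi with rfl | rfl
      · exact dvd_rfl
      · rw [sub_self]
        exact dvd_zero _
    · have h5 : c i = 0 := if_neg hi
      rw [h5]
      exact LD.zero _
  have hg : LD δ (c j * (m j - 1) + ∑ i ∈ Finset.univ.erase j, c i * m i)
      ((gj β m j).comp (X + C (β b))) := by
    unfold gj
    rw [mul_comp, pow_comp, prod_comp]
    refine ((hfac j).pow _).mul ?_
    simp only [pow_comp]
    exact LD.prod _ fun i => (hfac i).pow _
  have hsum : ∑ i, c i * m i = m a + m b := by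
    have h4 : ∀ i, c i * m i = if i ∈ ({a, b} : Finset κ) then m i else 0 := by
      intro i
      simp only [c, Finset.mem_insert, Finset.mem_singleton, ite_mul, one_mul, zero_mul]
    rw [Finset.sum_congr rfl fun i _ => h4 i, Finset.sum_ite_mem, Finset.univ_inter,
      Finset.sum_pair hab]
  have h5 := Finset.add_sum_erase Finset.univ (fun i => c i * m i) (Finset.mem_univ j)
  rw [hsum] at h5
  have h6 : c j ≤ 1 := by
    simp only [c]
    split_ifs <;> omega
  have h7 : c j * m j ≤ c j * (m j - 1) + 1 := by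
    obtain ⟨t, ht⟩ : ∃ t, m j = t + 1 := ⟨m j - 1, by have := hm j; omega⟩
    rw [ht, Nat.add_sub_cancel]
    nlinarith
  have h8 : m a + m b ≤ c j * (m j - 1) + ∑ i ∈ Finset.univ.erase j, c i * m i + 1 := by
    have h9 : c j * m j + ∑ i ∈ Finset.univ.erase j, c i * m i = m a + m b := h5
    omega
  exact (hg.intg.mono h8).eval

end low

section det

variable {k : Type} [Field k] {r : ℕ}

theorem dvd_det_of_row {A : Matrix (Fin r) (Fin r) k[X]} {g : k[X]} (c : Fin r → k[X]) (i : Fin r)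
    (hi : c i = 1) (h : ∀ j, g ∣ ∑ l, c l * A l j) : g ∣ A.det := by
  have h1 := Matrix.det_updateRow_sum A i c
  rw [hi, one_smul] at h1
  rw [← h1]
  choose v hv using h
  have h2 : (∑ l, c l • A l) = g • v := by
    funext j
    rw [Finset.sum_apply, Pi.smul_apply, smul_eq_mul, ← hv j]
    exact Finset.sum_congr rfl fun l _ => rfl
  rw [h2, Matrix.det_updateRow_smul]
  exact dvd_mul_right _ _

/-- the determinant is divisible by the powers of the differences -/
theorem dvd_det_minor (β : Fin (r + 1) → k[X]) {m : Fin (r + 1) → ℕ}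
    (hm : ∀ i, 0 < m i) (hinv : ∀ i : ℕ, i < ∑ l, m l → ((i : k) + 1) ≠ 0) {a b : Fin (r + 1)}
    (hab : a ≠ b) : (β a - β b) ^ (m a + m b) ∣ (minor 1 β m).det := by
  have hrow : ∀ (a : Fin (r + 1)) (j : Fin r), phi k β m 0 a j.succ =
      (Fin.cons 0 (fun i => minor 1 β m i j) : Fin (r + 1) → k[X]) a := by
    intro a j
    refine Fin.cases ?_ (fun a => ?_) a
    · rw [Fin.cons_zero, phi_row k _ _ rfl]
    · rw [Fin.cons_succ]
      unfold minor
      rw [Matrix.of_apply, one_mul]
  have key : ∀ a b : Fin (r + 1), a ≠ b → a ≠ 0 →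
      (β a - β b) ^ (m a + m b) ∣ (minor 1 β m).det := by
    intro a b hab ha
    obtain ⟨i, rfl⟩ := Fin.exists_succ_eq_of_ne_zero ha
    by_cases hb : b = 0
    · subst hb
      refine dvd_det_of_row (fun l => if l = i then 1 else 0) i (if_pos rfl) fun j => ?_
      have h1 := phi_row_dvd β hm hinv 0 hab j.succ
      rw [hrow, hrow, Fin.cons_succ, Fin.cons_zero, sub_zero] at h1
      simp only [ite_mul, one_mul, zero_mul, Finset.sum_ite_eq', Finset.mem_univ, if_true]
      exact h1
    · obtain ⟨l, rfl⟩ := Fin.exists_succ_eq_of_ne_zero hb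
      have hil : i ≠ l := fun h => hab (by rw [h])
      refine dvd_det_of_row (fun t => (if t = i then 1 else 0) - (if t = l then 1 else 0)) i
        (by simp [hil]) fun j => ?_
      have h1 := phi_row_dvd β hm hinv 0 hab j.succ
      rw [hrow, hrow, Fin.cons_succ, Fin.cons_succ] at h1
      simp only [sub_mul, ite_mul, one_mul, zero_mul, Finset.sum_sub_distrib, Finset.sum_ite_eq',
        Finset.mem_univ, if_true]
      exact h1
  by_cases ha : a = 0
  · have hb : b ≠ 0 := fun h => hab (ha.trans h.symm)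
    have h1 := key b a hab.symm hb
    have h2 : (β a - β b) ^ (m a + m b) = (-1) ^ (m a + m b) * (β b - β a) ^ (m b + m a) := by
      rw [add_comm (m b) (m a), ← mul_pow]
      congr 1
      ring
    rw [h2]
    have hu : IsUnit ((-1 : k[X]) ^ (m a + m b)) := (isUnit_one.neg).pow _
    exact (hu.mul_left_dvd).2 h1
  · exact key a b hab ha

theorem coeff_det {f : ℕ} (A : Matrix (Fin r) (Fin r) k[X]) (h : ∀ i j, (A i j).natDegree ≤ f) :
    A.det.coeff (r * f) = (Matrix.of fun i j => (A i j).coeff f).det := by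
  rw [Matrix.det_apply, Matrix.det_apply, finsetSum_coeff]
  refine Finset.sum_congr rfl fun σ _ => ?_
  have h1 : (∏ i, A (σ i) i).coeff (r * f) = ∏ i, (A (σ i) i).coeff f := by
    have h2 := coeff_prod_of_natDegree_le (s := Finset.univ) (fun i => A (σ i) i) f
      (fun i _ => h _ _)
    rw [Finset.card_univ, Fintype.card_fin] at h2
    exact h2
  rcases Int.units_eq_one_or (Equiv.Perm.sign σ) with hs | hs
  · rw [hs, one_smul, one_smul, h1]
    rfl
  · rw [hs, Units.neg_smul, Units.neg_smul, one_smul, one_smul, coeff_neg, h1]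
    rfl

/-- the pairs of sections -/
def prs (r : ℕ) : Finset (Fin (r + 1) × Fin (r + 1)) := Finset.univ.filter fun x => x.1 < x.2

theorem mem_prs {x : Fin (r + 1) × Fin (r + 1)} : x ∈ prs r ↔ x.1 < x.2 := by
  unfold prs
  rw [Finset.mem_filter]
  exact ⟨fun h => h.2, fun h => ⟨Finset.mem_univ _, h⟩⟩

theorem sum_prs (m : Fin (r + 1) → ℕ) : ∑ x ∈ prs r, (m x.1 + m x.2) = r * ∑ i, m i := by
  have h1 : ∑ x ∈ prs r, (m x.1 + m x.2) = ∑ x ∈ prs r, m x.1 + ∑ x ∈ prs r, m x.2 :=
    Finset.sum_add_distrib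
  have h2 : ∑ x ∈ prs r, m x.2 = ∑ x ∈ Finset.univ.filter (fun x : Fin (r + 1) × Fin (r + 1) =>
      x.2 < x.1), m x.1 := by
    refine Finset.sum_nbij' (fun x => (x.2, x.1)) (fun x => (x.2, x.1)) ?_ ?_ ?_ ?_ ?_
    · intro x hx
      rw [mem_prs] at hx
      rw [Finset.mem_filter]
      exact ⟨Finset.mem_univ _, hx⟩
    · intro x hx
      rw [Finset.mem_filter] at hx
      rw [mem_prs]
      exact hx.2
    · intro x _
      rfl
    · intro x _
      rfl
    · intro x _
      rfl
  rw [h1, h2]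
  have h3 : Disjoint (prs r) (Finset.univ.filter (fun x : Fin (r + 1) × Fin (r + 1) =>
      x.2 < x.1)) := by
    rw [Finset.disjoint_left]
    intro x hx hx'
    rw [mem_prs] at hx
    rw [Finset.mem_filter] at hx'
    exact absurd hx (not_lt.2 hx'.2.le)
  rw [← Finset.sum_union h3]
  have h4 : prs r ∪ (Finset.univ.filter (fun x : Fin (r + 1) × Fin (r + 1) => x.2 < x.1)) =
      Finset.univ.filter (fun x : Fin (r + 1) × Fin (r + 1) => x.1 ≠ x.2) := by
    ext x
    rw [Finset.mem_union, mem_prs, Finset.mem_filter, Finset.mem_filter]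
    constructor
    · rintro (h | h)
      · exact ⟨Finset.mem_univ _, h.ne⟩
      · exact ⟨Finset.mem_univ _, h.2.ne'⟩
    · rintro ⟨_, h⟩
      rcases lt_or_gt_of_ne h with h | h
      · exact Or.inl h
      · exact Or.inr ⟨Finset.mem_univ _, h⟩
  rw [h4, Finset.sum_filter, Fintype.sum_prod_type]
  have h5 : ∀ a : Fin (r + 1), ∑ b, (if (a, b).1 ≠ (a, b).2 then m (a, b).1 else 0) = r * m a := by
    intro a
    rw [← Finset.add_sum_erase Finset.univ _ (Finset.mem_univ a), if_neg (by simp), zero_add,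
      Finset.sum_congr rfl (g := fun _ => m a), Finset.sum_const,
      Finset.card_erase_of_mem (Finset.mem_univ _), Finset.card_univ, Fintype.card_fin,
      smul_eq_mul, Nat.add_sub_cancel]
    intro b hb
    rw [if_pos (fun h => (Finset.ne_of_mem_erase hb) h.symm)]
  rw [Finset.sum_congr rfl fun a _ => h5 a, ← Finset.mul_sum]

variable {β : Fin (r + 1) → k[X]} {m : Fin (r + 1) → ℕ}

/-- the hypotheses of simple collisions -/
structure Simple (β : Fin (r + 1) → k[X]) (D : ℕ) : Prop where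
  pos : 0 < D
  deg : ∀ i, (β i).natDegree ≤ D
  degD : ∀ i j, i ≠ j → (β i - β j).natDegree = D
  sq : ∀ i j, i ≠ j → Squarefree (β i - β j)
  col : ∀ P : k[X], Irreducible P → ∀ i j, i ≠ j → P ∣ β i - β j → ∀ a b, a ≠ b →
      P ∣ β a - β b → (a = i ∧ b = j) ∨ (a = j ∧ b = i)

theorem Simple.ne {D : ℕ} (h : Simple β D) {i j : Fin (r + 1)} (hij : i ≠ j) : β i - β j ≠ 0 := by
  intro h0
  have h1 := h.degD i j hij
  rw [h0, natDegree_zero] at h1
  exact h.pos.ne h1

theorem Simple.coprime {D : ℕ} (h : Simple β D) {x y : Fin (r + 1) × Fin (r + 1)} (hx : x ∈ prs r)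
    (hy : y ∈ prs r) (hxy : x ≠ y) : IsCoprime (β x.1 - β x.2) (β y.1 - β y.2) := by
  rw [mem_prs] at hx hy
  refine isCoprime_of_irreducible_dvd ?_ ?_
  · rintro ⟨h0, _⟩
    exact h.ne hx.ne h0
  · intro P hP h1 h2
    rcases h.col P hP _ _ hx.ne h1 _ _ hy.ne h2 with h3 | h3
    · exact hxy (Prod.ext h3.1.symm h3.2.symm)
    · rw [h3.1, h3.2] at hy
      exact absurd hx (not_lt.2 hy.le)

/-- **the determinant** -/
theorem det_eq {D : ℕ} (h : Simple β D)
    (hm : ∀ i, 0 < m i) (hinv : ∀ i : ℕ, i < ∑ l, m l → ((i : k) + 1) ≠ 0)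
    (hdet : (minor 1 β m).det ≠ 0) : ∃ c : k, c ≠ 0 ∧ (minor 1 β m).det =
      C c * ∏ x ∈ prs r, (β x.1 - β x.2) ^ (m x.1 + m x.2) := by
  have hdvd : ∏ x ∈ prs r, (β x.1 - β x.2) ^ (m x.1 + m x.2) ∣ (minor 1 β m).det := by
    refine Finset.prod_dvd_of_coprime ?_ ?_
    · intro x hx y hy hxy
      exact (h.coprime hx hy hxy).pow
    · intro x hx
      rw [mem_prs] at hx
      exact dvd_det_minor β hm hinv hx.ne
  obtain ⟨c, hc⟩ := hdvd
  have hc0 : c ≠ 0 := by
    intro h0
    rw [h0, mul_zero] at hc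
    exact hdet hc
  have hprod0 : ∏ x ∈ prs r, (β x.1 - β x.2) ^ (m x.1 + m x.2) ≠ 0 := by
    rw [Finset.prod_ne_zero_iff]
    intro x hx
    rw [mem_prs] at hx
    exact pow_ne_zero _ (h.ne hx.ne)
  have hdeg : (∏ x ∈ prs r, (β x.1 - β x.2) ^ (m x.1 + m x.2)).natDegree =
      r * (D * ∑ i, m i) := by
    rw [natDegree_prod _ _ fun x hx => pow_ne_zero _ (h.ne (mem_prs.1 hx).ne)]
    have h1 : ∀ x ∈ prs r, ((β x.1 - β x.2) ^ (m x.1 + m x.2)).natDegree =
        (m x.1 + m x.2) * D := by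
      intro x hx
      rw [mem_prs] at hx
      rw [natDegree_pow, h.degD _ _ hx.ne]
    rw [Finset.sum_congr rfl h1, ← Finset.sum_mul, sum_prs]
    ring
  have hle : (minor 1 β m).det.natDegree ≤ r * (D * ∑ i, m i) := by
    refine (natDegree_det_le _ (fun _ => D * ∑ i, m i) fun i j => ?_).trans (le_of_eq ?_)
    · unfold minor
      rw [Matrix.of_apply, one_mul]
      exact natDegree_phi h.deg hm _ _ _
    · rw [Finset.sum_const, Finset.card_univ, Fintype.card_fin, smul_eq_mul]
  have hcd : c.natDegree = 0 := by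
    rw [hc, natDegree_mul hprod0 hc0, hdeg] at hle
    omega
  refine ⟨c.coeff 0, ?_, ?_⟩
  · intro h0
    apply hc0
    rw [eq_C_of_natDegree_eq_zero hcd, h0, C_0]
  · rw [← eq_C_of_natDegree_eq_zero hcd, hc, mul_comm]

/-- the leading matrix is invertible -/
theorem lead_det {D : ℕ} (h : Simple β D)
    (hm : ∀ i, 0 < m i) (hinv : ∀ i : ℕ, i < ∑ l, m l → ((i : k) + 1) ≠ 0)
    (hdet : (minor 1 β m).det ≠ 0) :
    (Matrix.of fun i j => (minor 1 β m i j).coeff (D * ∑ i, m i)).det ≠ 0 := by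
  obtain ⟨c, hc, hd⟩ := det_eq h hm hinv hdet
  rw [← coeff_det _ (fun i j => by
    unfold minor
    rw [Matrix.of_apply, one_mul]
    exact natDegree_phi h.deg hm _ _ _)]
  have hdeg : (minor 1 β m).det.natDegree = r * (D * ∑ i, m i) := by
    rw [hd, natDegree_C_mul hc, natDegree_prod _ _ fun x hx =>
      pow_ne_zero _ (h.ne (mem_prs.1 hx).ne)]
    have h1 : ∀ x ∈ prs r, ((β x.1 - β x.2) ^ (m x.1 + m x.2)).natDegree =
        (m x.1 + m x.2) * D := by
      intro x hx
      rw [mem_prs] at hx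
      rw [natDegree_pow, h.degD _ _ hx.ne]
    rw [Finset.sum_congr rfl h1, ← Finset.sum_mul, sum_prs]
    ring
  rw [← hdeg, coeff_natDegree]
  exact leadingCoeff_ne_zero.2 hdet

/-- the multiplicities of the irreducible factors of the determinant -/
theorem mult_det {D : ℕ} (h : Simple β D)
    (hm : ∀ i, 0 < m i) (hinv : ∀ i : ℕ, i < ∑ l, m l → ((i : k) + 1) ≠ 0)
    (hdet : (minor 1 β m).det ≠ 0) {P : k[X]} (hP : Irreducible P) :
    ¬ P ^ (∑ i, m i + 1) ∣ (minor 1 β m).det := by
  obtain ⟨c, hc, hd⟩ := det_eq h hm hinv hdet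
  intro hdvd
  have hcu : IsUnit (C c : k[X]) := (isUnit_C).2 (isUnit_iff_ne_zero.2 hc)
  have hPc : ¬ P ∣ C c := fun h' => hP.not_isUnit (isUnit_of_dvd_unit h' hcu)
  rw [hd] at hdvd
  have h1 := hP.prime.pow_dvd_of_dvd_mul_left _ hPc hdvd
  have h2 : P ∣ ∏ x ∈ prs r, (β x.1 - β x.2) ^ (m x.1 + m x.2) :=
    (dvd_pow_self P (Nat.succ_ne_zero _)).trans h1
  obtain ⟨x, hx, hPx⟩ := (hP.prime.dvd_finsetProd_iff _).1 h2
  have hPx' := hP.prime.dvd_of_dvd_pow hPx
  rw [← Finset.mul_prod_erase _ _ hx] at h1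
  have h3 : ¬ P ∣ ∏ y ∈ (prs r).erase x, (β y.1 - β y.2) ^ (m y.1 + m y.2) := by
    intro h4
    obtain ⟨y, hy, hPy⟩ := (hP.prime.dvd_finsetProd_iff _).1 h4
    have hPy' := hP.prime.dvd_of_dvd_pow hPy
    rw [Finset.mem_erase] at hy
    have h5 := h.coprime hx hy.2 hy.1.symm
    exact hP.not_isUnit (h5.isUnit_of_dvd' hPx' hPy')
  have h4 := hP.prime.pow_dvd_of_dvd_mul_right _ h3 h1
  have hxx := mem_prs.1 hx
  obtain ⟨g, hg⟩ := hPx'
  have hPg : ¬ P ∣ g := by
    intro h5
    apply hP.not_isUnit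
    apply h.sq x.1 x.2 hxx.ne P
    rw [hg]
    exact mul_dvd_mul_left P h5
  have hle : m x.1 + m x.2 ≤ ∑ i, m i := by
    rw [← Finset.sum_pair hxx.ne]
    exact Finset.sum_le_sum_of_subset (Finset.subset_univ _)
  rw [hg, mul_pow] at h4
  have h5 : ∑ i, m i + 1 = (m x.1 + m x.2) + (∑ i, m i + 1 - (m x.1 + m x.2)) := by omega
  rw [h5, pow_add] at h4
  have h6 := (mul_dvd_mul_iff_left (pow_ne_zero _ hP.ne_zero)).1 h4
  have h7 : P ∣ g ^ (m x.1 + m x.2) :=
    (dvd_pow_self P (by omega)).trans h6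
  exact hPg (hP.prime.dvd_of_dvd_pow h7)

end det

end Pool.Agent.Y709.Irr
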