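import Pool.Agent.Y709.Gen.FixG
import Pool.Agent.Y709.Gen.Deg
import Pool.Agent.Y709.GStm3

/-!
The kernel of the matrix `Φ` for sections that may coincide.
-/

set_option autoImplicit false
set_option linter.unusedSectionVars false

open Polynomial

namespace Pool.Agent.Y709.Gen

section ker

variable {k F : Type} [Field k] [Field F] [Algebra k F] {p : ℕ} [hp : Fact p.Prime] [CharP F p]
  {f q : ℕ} (hq : q = p ^ f) (hf : 0 < f)

include hq hf in
/-- the kernel of `Φ` consists of constant vectors -/
theorem phi_ker_const {ι : Type} [Fintype ι] [DecidableEq ι] {m : ℕ} (hm : Fintype.card ι = m + 1)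
    {β : ι → F} (hβ : Function.Injective β)
    {μ : ι → ℕ} (hμ : ∀ l, 0 < μ l) (hμq : ∀ l, μ l < q)
    (hinv : ∀ i : ℕ, i < ∑ l, μ l → ((i : k) + 1) ≠ 0) (o : ι) (u : ι → F)
    (hu : (phi k β μ o).mulVec u = 0) (j : ι) : u j = u o := by
  have h1 := dual_id (k := k) hq hf hm hβ hμ hμq hinv o
  have h2 : Matrix.vecMul u (Em m β) = 0 := by
    rw [← h1, ← Matrix.vecMul_vecMul, Matrix.vecMul_transpose, hu, Matrix.zero_vecMul]
  have h3 : Matrix.vecMul u (Em m β * Ep m β o) = 0 := by
    rw [← Matrix.vecMul_vecMul, h2, Matrix.zero_vecMul]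
  rw [Em_mul_Ep hm hβ] at h3
  have h4 := congrFun h3 j
  rw [Matrix.vecMul, dotProduct] at h4
  simp only [Matrix.of_apply, mul_sub, mul_ite, mul_one, mul_zero, Finset.sum_sub_distrib,
    Finset.sum_ite_eq', Finset.mem_univ, if_true, Pi.zero_apply] at h4
  exact sub_eq_zero.1 h4

include hq hf in
open scoped Classical in
/-- the kernel of `Φ` for sections that may coincide: the weighted sums over the fibres of `u - c`
vanish for a constant `c` -/
theorem phi_ker_gen {κ : Type} [Fintype κ] [DecidableEq κ] (β : κ → F)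
    {μ : κ → ℕ} (hμ : ∀ l, 0 < μ l) (hμq : ∑ l, μ l < q)
    (hinv : ∀ i : ℕ, i < ∑ l, μ l → ((i : k) + 1) ≠ 0) (o : κ) (u : κ → F)
    (hu : (phi k β μ o).mulVec u = 0) :
    ∃ c : F, ∀ i, ∑ j with β j = β i, (μ j : F) * (u j - c) = 0 := by
  have hfin : Fintype (Set.range β) := Fintype.ofFinite _
  let s : κ → Set.range β := Set.rangeFactorization β
  have hs : Function.Surjective s := Set.rangeFactorization_surjective
  let β' : Set.range β → F := Subtype.val
  have hβ' : Function.Injective β' := Subtype.val_injective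
  have hcard : ∃ m, Fintype.card (Set.range β) = m + 1 := by
    have : 0 < Fintype.card (Set.range β) := Fintype.card_pos_iff.2 ⟨s o⟩
    exact ⟨Fintype.card (Set.range β) - 1, by omega⟩
  obtain ⟨m, hm⟩ := hcard
  have hle : ∀ l, mu μ s l ≤ ∑ i, μ i := by
    intro l
    rw [← sum_mu μ s]
    exact Finset.single_le_sum (f := mu μ s) (fun _ _ => Nat.zero_le _) (Finset.mem_univ l)
  have hne : ∀ l, ((mu μ s l : ℕ) : F) ≠ 0 := by
    intro l h
    have h1 := mu_pos hμ hs l
    have h2 := hle l
    apply hinv (mu μ s l - 1) (by omega)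
    apply (algebraMap k F).injective
    rw [map_add, map_natCast, map_one, map_zero, Nat.cast_sub h1, Nat.cast_one, h]
    ring
  have hcoll := phi_coll (k := k) hμ hs hne β' o
  have hββ : (fun i => β' (s i)) = β := rfl
  rw [hββ] at hcoll
  have hPu : (phi k β' (mu μ s) (s o)).mulVec ((Av F μ s).mulVec u) = 0 := by
    rw [hcoll, ← Matrix.mulVec_mulVec, ← Matrix.mulVec_mulVec] at hu
    funext l
    obtain ⟨i, rfl⟩ := hs l
    have h1 := congrFun hu i
    rw [Matrix.mulVec, dotProduct] at h1
    unfold Pu at h1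
    simp only [Matrix.of_apply, ite_mul, one_mul, zero_mul, Finset.sum_ite_eq,
      Finset.mem_univ, if_true, Pi.zero_apply] at h1
    exact h1
  have hinv' : ∀ i : ℕ, i < ∑ l, mu μ s l → ((i : k) + 1) ≠ 0 := by
    intro i hi
    rw [sum_mu] at hi
    exact hinv i hi
  have hconst := phi_ker_const (k := k) hq hf hm hβ' (mu_pos hμ hs)
    (fun l => (hle l).trans_lt hμq) hinv' (s o) _ hPu
  refine ⟨(Av F μ s).mulVec u (s o), ?_⟩
  intro i
  have h1 := hconst (s i)
  set c := (Av F μ s).mulVec u (s o) with hc
  have h2 : (Av F μ s).mulVec u (s i) = (∑ j with β j = β i, (μ j : F) * u j) /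
      (mu μ s (s i) : F) := by
    rw [Matrix.mulVec, dotProduct]
    unfold Av
    simp only [Matrix.of_apply, ite_mul, zero_mul]
    rw [← Finset.sum_filter, Finset.sum_div]
    have h3 : (Finset.univ.filter fun j => s j = s i) = Finset.univ.filter fun j => β j = β i := by
      ext j
      simp only [Finset.mem_filter, Finset.mem_univ, true_and]
      constructor
      · intro h
        exact congrArg Subtype.val h
      · intro h
        exact Subtype.ext h
    rw [h3]
    refine Finset.sum_congr rfl fun j _ => ?_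
    ring
  rw [h2, div_eq_iff (hne _)] at h1
  simp only [mul_sub]
  rw [Finset.sum_sub_distrib, h1, ← Finset.sum_mul]
  have h4 : ((mu μ s (s i) : ℕ) : F) = ∑ j with β j = β i, (μ j : F) := by
    unfold mu
    rw [Nat.cast_sum]
    have h3 : (Finset.univ.filter fun j => s j = s i) = Finset.univ.filter fun j => β j = β i := by
      ext j
      simp only [Finset.mem_filter, Finset.mem_univ, true_and]
      constructor
      · intro h
        exact congrArg Subtype.val h
      · intro h
        exact Subtype.ext h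
    rw [h3]
  rw [h4]
  ring

end ker

end Pool.Agent.Y709.Gen
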